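import Pool.Agent.N299.DT.Stm2
import Pool.Agent.Helper757.GL.Quot

/-!
DT/UPX: existence of the ultrapower of a C*-algebra.
-/

set_option autoImplicit false

open scoped BoundedContinuousFunction Topology
open Filter Pool.Agent.Helper757.GL

noncomputable section

namespace Pool.Agent.N704.DT

variable {B : Type} [CStarAlgebra B]

/-- the ideal of bounded sequences which tend to zero along `ω` -/
def J (B : Type) [CStarAlgebra B] (ω : Ultrafilter ℕ) : Submodule ℂ (ℕ →ᵇ B) where
  carrier := {x | Tendsto (fun n => ‖x n‖) ω (𝓝 0)}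
  zero_mem' := by
    show Tendsto (fun n => ‖(0 : ℕ →ᵇ B) n‖) ω (𝓝 0)
    simp
  add_mem' := by
    intro x y hx hy
    have h := Filter.Tendsto.add hx hy
    rw [add_zero] at h
    refine squeeze_zero (fun n => norm_nonneg _) (fun n => ?_) h
    simpa using norm_add_le (x n) (y n)
  smul_mem' := by
    intro c x hx
    have h := Filter.Tendsto.const_mul ‖c‖ hx
    rw [mul_zero] at h
    refine squeeze_zero (fun n => norm_nonneg _) (fun n => ?_) h
    exact le_of_eq (norm_smul c (x n))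

theorem mem_J (ω : Ultrafilter ℕ) (x : ℕ →ᵇ B) :
    x ∈ J B ω ↔ Tendsto (fun n => ‖x n‖) ω (𝓝 0) := Iff.rfl

theorem ciJ (ω : Ultrafilter ℕ) : CI (J B ω) where
  closed := by
    rw [← closure_subset_iff_isClosed]
    intro x hx
    rw [Metric.mem_closure_iff] at hx
    show Tendsto (fun n => ‖x n‖) ω (𝓝 0)
    rw [Metric.tendsto_nhds]
    intro ε hε
    obtain ⟨y, hy, hxy⟩ := hx (ε / 2) (by positivity)
    have hy' : Tendsto (fun n => ‖y n‖) ω (𝓝 0) := hy
    rw [Metric.tendsto_nhds] at hy'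
    filter_upwards [hy' (ε / 2) (by positivity)] with n hn
    rw [Real.dist_eq, sub_zero, abs_of_nonneg (norm_nonneg _)] at hn ⊢
    have h1 : ‖x n - y n‖ ≤ ‖x - y‖ := (x - y).norm_coe_le_norm n
    rw [dist_eq_norm] at hxy
    have h2 : ‖x n‖ ≤ ‖x n - y n‖ + ‖y n‖ := by
      simpa using norm_add_le (x n - y n) (y n)
    linarith
  hl := by
    intro a x hx
    have h := Filter.Tendsto.const_mul ‖a‖ hx
    rw [mul_zero] at h
    refine squeeze_zero (fun n => norm_nonneg _) (fun n => ?_) h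
    calc ‖(a * x) n‖ = ‖a n * x n‖ := rfl
      _ ≤ ‖a n‖ * ‖x n‖ := norm_mul_le _ _
      _ ≤ ‖a‖ * ‖x n‖ := by gcongr; exact a.norm_coe_le_norm n
  hr := by
    intro a x hx
    have h := Filter.Tendsto.mul_const ‖a‖ hx
    rw [zero_mul] at h
    refine squeeze_zero (fun n => norm_nonneg _) (fun n => ?_) h
    calc ‖(x * a) n‖ = ‖x n * a n‖ := rfl
      _ ≤ ‖x n‖ * ‖a n‖ := norm_mul_le _ _
      _ ≤ ‖x n‖ * ‖a‖ := by gcongr; exact a.norm_coe_le_norm n

theorem t_UPX : Pool.Agent.N299.DT.S_UPX := by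
  intro B _ ω
  refine ⟨Q (ciJ (B := B) ω), inferInstance,
    { mkHom (ciJ (B := B) ω) with map_star' := fun a => mk_star _ a }, ?_, ?_⟩
  · exact mkHom_surj (ciJ (B := B) ω)
  · intro x
    exact mkHom_eq_zero (ciJ (B := B) ω) x

end Pool.Agent.N704.DT
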